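import Mathlib
import Pool.Agent.Helper29_CF.Stmt

/-!
PROB: a single Pasch is robust.
-/

namespace Pool.Agent.Helper29_CF.H38

open Finset

/-- first line of the point `k` of the standard Pasch -/
def p1 : Fin 6 → Fin 4 := ![0, 0, 0, 1, 1, 2]
/-- second line of the point `k` of the standard Pasch -/
def p2 : Fin 6 → Fin 4 := ![1, 2, 3, 2, 3, 3]

/-- colour degree in the standard Pasch -/
def cd (st : Fin 4 → Option Bool) (κ : Bool) (k : Fin 6) : ℕ :=
  (if st (p1 k) = some κ then 1 else 0) + (if st (p2 k) = some κ then 1 else 0)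

theorem near0 : ∀ k : Fin 6, ∃ st : Fin 4 → Option Bool, (st (p1 k) = none ∧ st (p2 k) = none) ∧
    ∀ j, j ≠ k → cd st true j = 1 ∨ cd st false j = 1 := by
  decide +kernel

theorem near20 : ∀ k k' : Fin 6, k ≠ k' → ∀ κ : Bool, ∃ st : Fin 4 → Option Bool,
    (st (p1 k) = none ∧ st (p2 k) = none) ∧ (cd st κ k' = 0 ∨ cd st (!κ) k' = 1) ∧
    ∀ j, j ≠ k → j ≠ k' → cd st true j = 1 ∨ cd st false j = 1 := by
  decide +kernel

theorem compl0 : ∀ Y : Fin 6 → Bool, (∃ k, Y k = true) →
    (univ.filter (fun k => Y k = true)).card ≤ 3 → ∀ κ : Bool, ∃ st : Fin 4 → Option Bool,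
    ∀ j, (Y j = false → cd st true j = 1 ∨ cd st false j = 1) ∧
      (Y j = true → cd st κ j = 0 ∨ cd st (!κ) j = 1) := by
  decide +kernel

theorem pair_ex : ∀ a b : Fin 4, a ≠ b → ∃ k : Fin 6, (p1 k = a ∧ p2 k = b) ∨ (p1 k = b ∧ p2 k = a) := by
  decide

theorem p1_ne_p2 : ∀ k : Fin 6, p1 k ≠ p2 k := by decide

theorem pair_inj : ∀ k k' : Fin 6, (p1 k = p1 k' ∨ p1 k = p2 k') → (p2 k = p1 k' ∨ p2 k = p2 k') →
    k = k' := by decide

variable {V B : Type} [DecidableEq V] [DecidableEq B]

theorem deg_image (s : B → Finset V) (e : Fin 4 → B) (he : Function.Injective e) (y : V) :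
    deg s (univ.image e) y = (univ.filter (fun m : Fin 4 => y ∈ s (e m))).card := by
  unfold deg
  rw [Finset.filter_image, Finset.card_image_of_injective _ he]

theorem param (s : B → Finset V) (L : Finset B) (h : Pasch s L) :
    ∃ (e : Fin 4 → B) (x : Fin 6 → V), Function.Injective e ∧ Function.Injective x ∧
      L = univ.image e ∧ (∀ k m, x k ∈ s (e m) ↔ m = p1 k ∨ m = p2 k) ∧
      pts s L = univ.image x := by
  obtain ⟨h4, -, h2, h3⟩ := h
  let ι := L.equivFinOfCardEq h4
  let e : Fin 4 → B := fun i => (ι.symm i).1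
  have he : Function.Injective e := fun i j hij => ι.symm.injective (Subtype.ext hij)
  have hL : L = univ.image e := by
    ext b
    simp only [mem_image, mem_univ, true_and]
    constructor
    · intro hb
      exact ⟨ι ⟨b, hb⟩, by simp [e]⟩
    · rintro ⟨i, rfl⟩
      exact (ι.symm i).2
  have heL : ∀ i, e i ∈ L := fun i => (ι.symm i).2
  have hx : ∀ k : Fin 6, ∃ y, s (e (p1 k)) ∩ s (e (p2 k)) = {y} := by
    intro k
    exact Finset.card_eq_one.1 (h2 _ (heL _) _ (heL _) (fun hc => p1_ne_p2 k (he hc)))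
  choose x hx using hx
  have hx1 : ∀ k, x k ∈ s (e (p1 k)) := fun k =>
    (Finset.mem_inter.1 (by rw [hx k]; exact mem_singleton_self _ : x k ∈ _ ∩ _)).1
  have hx2 : ∀ k, x k ∈ s (e (p2 k)) := fun k =>
    (Finset.mem_inter.1 (by rw [hx k]; exact mem_singleton_self _ : x k ∈ _ ∩ _)).2
  have hmem : ∀ k m, x k ∈ s (e m) ↔ m = p1 k ∨ m = p2 k := by
    intro k m
    constructor
    · intro hm
      by_contra hcon
      push Not at hcon
      have hd : deg s L (x k) = 2 := by
        rcases h3 (x k) with h | h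
        · exfalso
          unfold deg at h
          rw [Finset.card_eq_zero] at h
          have : e m ∈ L.filter (fun b => x k ∈ s b) := Finset.mem_filter.2 ⟨heL m, hm⟩
          rw [h] at this
          exact absurd this (Finset.notMem_empty _)
        · exact h
      rw [hL, deg_image s e he] at hd
      have hsub : ({p1 k, p2 k, m} : Finset (Fin 4)) ⊆ univ.filter (fun m => x k ∈ s (e m)) := by
        intro i hi
        simp only [Finset.mem_insert, Finset.mem_singleton] at hi
        rw [Finset.mem_filter]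
        rcases hi with rfl | rfl | rfl
        · exact ⟨mem_univ _, hx1 k⟩
        · exact ⟨mem_univ _, hx2 k⟩
        · exact ⟨mem_univ _, hm⟩
      have hc := Finset.card_le_card hsub
      rw [hd, Finset.card_eq_three.2 ⟨p1 k, p2 k, m, p1_ne_p2 k, Ne.symm hcon.1,
        Ne.symm hcon.2, rfl⟩] at hc
      omega
    · rintro (rfl | rfl)
      · exact hx1 k
      · exact hx2 k
  have hxinj : Function.Injective x := by
    intro k k' hk
    apply pair_inj
    · exact (hmem k' _).1 (hk ▸ hx1 k)
    · exact (hmem k' _).1 (hk ▸ hx2 k)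
  refine ⟨e, x, he, hxinj, hL, hmem, ?_⟩
  ext y
  simp only [pts, mem_biUnion, mem_image, mem_univ, true_and]
  constructor
  · rintro ⟨b, hb, hy⟩
    have hd : deg s L y = 2 := by
      rcases h3 y with h | h
      · exfalso
        unfold deg at h
        rw [Finset.card_eq_zero] at h
        have : b ∈ L.filter (fun b => y ∈ s b) := Finset.mem_filter.2 ⟨hb, hy⟩
        rw [h] at this
        exact absurd this (Finset.notMem_empty _)
      · exact h
    rw [hL, deg_image s e he, Finset.card_eq_two] at hd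
    obtain ⟨i, j, hij, hd⟩ := hd
    have hi : y ∈ s (e i) := (Finset.mem_filter.1 (by rw [hd]; simp : i ∈ univ.filter
      (fun m => y ∈ s (e m)))).2
    have hj : y ∈ s (e j) := (Finset.mem_filter.1 (by rw [hd]; simp : j ∈ univ.filter
      (fun m => y ∈ s (e m)))).2
    obtain ⟨k, hk⟩ := pair_ex i j hij
    refine ⟨k, ?_⟩
    have : y ∈ s (e (p1 k)) ∩ s (e (p2 k)) := by
      rw [Finset.mem_inter]
      rcases hk with ⟨h1, h2⟩ | ⟨h1, h2⟩
      · rw [h1, h2]; exact ⟨hi, hj⟩
      · rw [h1, h2]; exact ⟨hj, hi⟩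
    rw [hx k, Finset.mem_singleton] at this
    exact this.symm
  · rintro ⟨k, rfl⟩
    exact ⟨e (p1 k), heL _, hx1 k⟩

open Classical in
/-- the family of a state -/
noncomputable def fam (e : Fin 4 → B) (st : Fin 4 → Option Bool) : Finset B :=
  (univ.filter (fun m => st m ≠ none)).image e

open Classical in
/-- the colouring of a state -/
noncomputable def col (e : Fin 4 → B) (st : Fin 4 → Option Bool) (b : B) : Bool :=
  if h : ∃ m, e m = b then (st h.choose).getD true else true

theorem col_e (e : Fin 4 → B) (he : Function.Injective e) (st : Fin 4 → Option Bool) (m : Fin 4) :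
    col e st (e m) = (st m).getD true := by
  unfold col
  have h : ∃ m', e m' = e m := ⟨m, rfl⟩
  rw [dif_pos h, he h.choose_spec]

theorem cdeg_fam (s : B → Finset V) (e : Fin 4 → B) (he : Function.Injective e)
    (x : Fin 6 → V) (hmem : ∀ k m, x k ∈ s (e m) ↔ m = p1 k ∨ m = p2 k)
    (st : Fin 4 → Option Bool) (κ : Bool) (k : Fin 6) :
    cdeg s (fam e st) (col e st) κ (x k) = cd st κ k := by
  classical
  unfold cdeg fam
  rw [Finset.filter_image, Finset.card_image_of_injective _ he, Finset.filter_filter]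
  have h1 : (univ.filter (fun m : Fin 4 => st m ≠ none ∧ (x k ∈ s (e m) ∧ col e st (e m) = κ))) =
      univ.filter (fun m : Fin 4 => (m = p1 k ∨ m = p2 k) ∧ st m = some κ) := by
    apply Finset.filter_congr
    intro m _
    rw [hmem, col_e e he]
    constructor
    · rintro ⟨h1, h2, h3⟩
      refine ⟨h2, ?_⟩
      obtain ⟨b, hb⟩ := Option.ne_none_iff_exists'.1 h1
      rw [hb] at h3 ⊢
      simp only [Option.getD_some] at h3
      rw [h3]
    · rintro ⟨h1, h2⟩
      refine ⟨by rw [h2]; simp, h1, by rw [h2]; simp⟩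
  rw [h1, Finset.filter_and, Finset.filter_or, Finset.filter_eq' univ, Finset.filter_eq' univ,
    if_pos (mem_univ _), if_pos (mem_univ _)]
  unfold cd
  have hne := p1_ne_p2 k
  have h2 : (({p1 k} : Finset (Fin 4)) ∪ {p2 k}) ∩ univ.filter (fun m : Fin 4 => st m = some κ) =
      (({p1 k, p2 k} : Finset (Fin 4))).filter (fun m => st m = some κ) := by
    ext m
    simp only [mem_inter, mem_union, mem_singleton, mem_filter, mem_univ, true_and, mem_insert]
  rw [h2, Finset.card_filter, Finset.sum_pair hne]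

theorem fam_sub (e : Fin 4 → B) (st : Fin 4 → Option Bool) : fam e st ⊆ univ.image e := by
  classical
  unfold fam
  exact Finset.image_subset_image (Finset.filter_subset _ _)

theorem sat_fam (s : B → Finset V) (e : Fin 4 → B) (he : Function.Injective e)
    (x : Fin 6 → V) (hmem : ∀ k m, x k ∈ s (e m) ↔ m = p1 k ∨ m = p2 k)
    (st : Fin 4 → Option Bool) (k : Fin 6) (h : cd st true k = 1 ∨ cd st false k = 1) :
    Sat s (fam e st) (col e st) (x k) := by
  rcases h with h | h
  · exact ⟨true, by rw [cdeg_fam s e he x hmem, h]⟩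
  · exact ⟨false, by rw [cdeg_fam s e he x hmem, h]⟩

theorem satP_fam (s : B → Finset V) (e : Fin 4 → B) (he : Function.Injective e)
    (x : Fin 6 → V) (hmem : ∀ k m, x k ∈ s (e m) ↔ m = p1 k ∨ m = p2 k)
    (st : Fin 4 → Option Bool) (κ : Bool) (k : Fin 6) (h : cd st κ k = 0 ∨ cd st (!κ) k = 1) :
    SatP s (fam e st) (col e st) κ (x k) := by
  unfold SatP
  rw [cdeg_fam s e he x hmem, cdeg_fam s e he x hmem]
  exact h

theorem fam_avoid (s : B → Finset V) (e : Fin 4 → B)
    (x : Fin 6 → V) (hmem : ∀ k m, x k ∈ s (e m) ↔ m = p1 k ∨ m = p2 k)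
    (st : Fin 4 → Option Bool) (k : Fin 6) (h : st (p1 k) = none ∧ st (p2 k) = none) :
    ∀ b ∈ fam e st, x k ∉ s b := by
  classical
  intro b hb hx
  unfold fam at hb
  obtain ⟨m, hm, rfl⟩ := Finset.mem_image.1 hb
  have hm' := (Finset.mem_filter.1 hm).2
  rcases (hmem k m).1 hx with rfl | rfl
  · exact hm' h.1
  · exact hm' h.2

end Pool.Agent.Helper29_CF.H38

namespace Pool.Agent.Helper29_CF.H38

open Finset

theorem prob : PRobStmt := by
  classical
  intro V B _ _ _ _ s L hL
  obtain ⟨e, x, he, hx, hLe, hmem, hpts⟩ := param s L hL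
  have hW : ∀ y, y ∈ pts s L ↔ ∃ k, x k = y := by
    intro y
    rw [hpts]
    simp
  constructor
  · intro y hy
    obtain ⟨k, rfl⟩ := (hW y).1 hy
    obtain ⟨st, h1, h2⟩ := near0 k
    refine ⟨fam e st, hLe ▸ fam_sub e st, col e st, fam_avoid s e x hmem st k h1, ?_⟩
    intro y hy hne
    obtain ⟨j, rfl⟩ := (hW y).1 hy
    exact sat_fam s e he x hmem st j (h2 j (fun hc => hne (by rw [hc])))
  · intro y hy y' hy' hne κ
    obtain ⟨k, rfl⟩ := (hW y).1 hy
    obtain ⟨k', rfl⟩ := (hW y').1 hy'
    obtain ⟨st, h1, h2, h3⟩ := near20 k k' (fun hc => hne (by rw [hc])) κ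
    refine ⟨fam e st, hLe ▸ fam_sub e st, col e st, fam_avoid s e x hmem st k h1,
      satP_fam s e he x hmem st κ k' h2, ?_⟩
    intro z hz hz1 hz2
    obtain ⟨j, rfl⟩ := (hW z).1 hz
    exact sat_fam s e he x hmem st j (h3 j (fun hc => hz1 (by rw [hc]))
      (fun hc => hz2 (by rw [hc])))
  · intro Y hYW hYne hYc κ
    obtain ⟨st, h1⟩ := compl0 (fun k => decide (x k ∈ Y)) (by
      obtain ⟨y, hy⟩ := hYne
      obtain ⟨k, rfl⟩ := (hW y).1 (hYW hy)
      exact ⟨k, by simpa using hy⟩) (by
      refine le_trans ?_ hYc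
      refine Finset.card_le_card_of_injOn x ?_ hx.injOn
      intro k hk
      simpa using hk) κ
    refine ⟨fam e st, hLe ▸ fam_sub e st, col e st, ?_⟩
    intro y hy
    obtain ⟨k, rfl⟩ := (hW y).1 hy
    constructor
    · intro hyY
      exact sat_fam s e he x hmem st k ((h1 k).1 (by simpa using hyY))
    · intro hyY
      exact satP_fam s e he x hmem st κ k ((h1 k).2 (by simpa using hyY))

end Pool.Agent.Helper29_CF.H38
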