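import Mathlib
import Pool.Agent.Helper29_CF.Stmt

/-!
STEP: one rounding step.
-/

namespace Pool.Agent.Helper29_CF.H38

open Finset

theorem step : StepStmt := by
  intro B _ _ z R hz hR
  classical
  set F : Finset B := univ.filter (fun b => z b ≠ 0 ∧ z b ≠ 1) with hF
  have memF : ∀ v, v ∈ F ↔ (z v ≠ 0 ∧ z v ≠ 1) := by intro v; simp [hF]
  have hFpos : 0 < F.card := by omega
  let L : (B → ℝ) →ₗ[ℝ] ((R → ℝ) × ((univ \ F : Finset B) → ℝ)) :=
    { toFun := fun d => (fun e => ∑ v ∈ e.1, d v, fun v => d v.1)
      map_add' := by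
        intro a b
        ext i
        · simp [Finset.sum_add_distrib]
        · simp
      map_smul' := by
        intro c a
        ext i
        · simp [Finset.mul_sum]
        · simp }
  have hker : LinearMap.ker L ≠ ⊥ := by
    apply LinearMap.ker_ne_bot_of_finrank_lt
    rw [Module.finrank_prod, Module.finrank_fintype_fun_eq_card,
      Module.finrank_fintype_fun_eq_card, Module.finrank_fintype_fun_eq_card]
    simp only [Fintype.card_coe]
    have h1 : (univ \ F : Finset B).card = Fintype.card B - F.card := by
      rw [Finset.card_sdiff_of_subset (Finset.subset_univ F), Finset.card_univ]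
    have h2 : F.card ≤ Fintype.card B := Finset.card_le_univ F
    omega
  obtain ⟨d, hdker, hdne⟩ := (Submodule.ne_bot_iff _).1 hker
  rw [LinearMap.mem_ker] at hdker
  have hd1 : ∀ e ∈ R, ∑ v ∈ e, d v = 0 := by
    intro e he
    have := congrFun (congrArg Prod.fst hdker) ⟨e, he⟩
    simpa [L] using this
  have hd2 : ∀ v, v ∉ F → d v = 0 := by
    intro v hv
    have := congrFun (congrArg Prod.snd hdker) ⟨v, by simp [hv]⟩
    simpa [L] using this
  set S : Finset B := F.filter (fun v => d v ≠ 0) with hS
  have hSne : S.Nonempty := by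
    obtain ⟨v, hv⟩ := Function.ne_iff.1 hdne
    refine ⟨v, ?_⟩
    rw [hS, Finset.mem_filter]
    refine ⟨?_, hv⟩
    by_contra hcon
    exact hv (hd2 v hcon)
  let t : B → ℝ := fun v => if 0 < d v then (1 - z v) / d v else z v / (- d v)
  obtain ⟨v0, hv0S, hv0min⟩ := Finset.exists_min_image S t hSne
  have hxF : ∀ v ∈ F, 0 < z v ∧ z v < 1 := by
    intro v hv
    obtain ⟨h1, h2⟩ := (memF v).1 hv
    exact ⟨lt_of_le_of_ne (hz v).1 (Ne.symm h1), lt_of_le_of_ne (hz v).2 h2⟩
  have htpos : ∀ v ∈ S, 0 < t v := by
    intro v hv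
    obtain ⟨hvF, hvd⟩ := Finset.mem_filter.1 hv
    obtain ⟨h1, h2⟩ := hxF v hvF
    by_cases hd : 0 < d v
    · simp only [t, if_pos hd]
      exact div_pos (by linarith) hd
    · simp only [t, if_neg hd]
      have : d v < 0 := lt_of_le_of_ne (not_lt.1 hd) hvd
      exact div_pos h1 (by linarith)
  have ht0 : 0 < t v0 := htpos v0 hv0S
  set x' : B → ℝ := fun v => z v + t v0 * d v with hx'
  have hx'bd : ∀ v, 0 ≤ x' v ∧ x' v ≤ 1 := by
    intro v
    by_cases hvS : v ∈ S
    · obtain ⟨hvF, hvd⟩ := Finset.mem_filter.1 hvS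
      obtain ⟨h1, h2⟩ := hxF v hvF
      have hle := hv0min v hvS
      by_cases hd : 0 < d v
      · simp only [t, if_pos hd] at hle
        have h3 : t v0 * d v ≤ 1 - z v := by
          have := (le_div_iff₀ hd).1 hle
          simpa [t] using this
        have h4 : 0 < t v0 * d v := mul_pos ht0 hd
        simp only [hx']
        constructor <;> linarith
      · have hdn : d v < 0 := lt_of_le_of_ne (not_lt.1 hd) hvd
        have hle' : t v0 ≤ z v / (- d v) := by
          have : t v = z v / (- d v) := by simp only [t, if_neg hd]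
          rw [← this]; exact hle
        have h3 : t v0 * (- d v) ≤ z v := (le_div_iff₀ (by linarith)).1 hle'
        have h4 : 0 < t v0 * (- d v) := mul_pos ht0 (by linarith)
        simp only [hx']
        constructor <;> nlinarith
    · have hdv : d v = 0 := by
        by_contra hcon
        apply hvS
        rw [hS, Finset.mem_filter]
        refine ⟨?_, hcon⟩
        by_contra hc2
        exact hcon (hd2 v hc2)
      simp only [hx', hdv, mul_zero, add_zero]
      exact hz v
  have hx'out : ∀ v, v ∉ F → x' v = z v := by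
    intro v hv
    simp only [hx', hd2 v hv, mul_zero, add_zero]
  have hx'v0 : x' v0 = 0 ∨ x' v0 = 1 := by
    obtain ⟨hvF, hvd⟩ := Finset.mem_filter.1 hv0S
    by_cases hd : 0 < d v0
    · right
      have : t v0 = (1 - z v0) / d v0 := by simp only [t, if_pos hd]
      simp only [hx', this]
      field_simp
      ring
    · left
      have hdn : d v0 < 0 := lt_of_le_of_ne (not_lt.1 hd) hvd
      have : t v0 = z v0 / (- d v0) := by simp only [t, if_neg hd]
      simp only [hx', this]
      field_simp
      ring
  refine ⟨x', hx'bd, ?_, ?_, ?_⟩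
  · intro b hb
    apply hx'out
    intro hc
    obtain ⟨h1, h2⟩ := (memF b).1 hc
    rcases hb with h | h
    · exact h1 h
    · exact h2 h
  · intro A hA
    simp only [hx', Finset.sum_add_distrib, ← Finset.mul_sum, hd1 A hA, mul_zero, add_zero]
  · have hF'sub : univ.filter (fun v => x' v ≠ 0 ∧ x' v ≠ 1) ⊆ F.erase v0 := by
      intro v hv
      rw [Finset.mem_filter] at hv
      rw [Finset.mem_erase]
      constructor
      · rintro rfl
        rcases hx'v0 with h | h
        · exact hv.2.1 h
        · exact hv.2.2 h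
      · by_contra hcon
        have h1 := hx'out v hcon
        rw [h1] at hv
        exact hcon ((memF v).2 hv.2)
    have h1 := Finset.card_le_card hF'sub
    have hvF : v0 ∈ F := (Finset.mem_filter.1 hv0S).1
    rw [Finset.card_erase_of_mem hvF] at h1
    omega

end Pool.Agent.Helper29_CF.H38
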