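import Pool.Agent.Helper38_CF.Prob

/-!
LEAFISO: a Pasch all of whose exits are at one point shares no block with another Pasch.
-/

namespace Pool.Agent.Helper29_CF.H38

open Finset

theorem other_idx : ∀ i j : Fin 4, i ≠ j → ∃ k : Fin 4, k ≠ i ∧ k ≠ j := by decide

theorem leafIso : LeafIsoStmt := by
  classical
  intro V B _ _ _ _ s K L x hLK hL hex L' hL' hL'K hne
  rw [Finset.disjoint_left]
  intro l hl hl'
  apply hne
  obtain ⟨e, y, he, hy, hLe, hmem, hpts⟩ := param s L' hL'
  have heL' : ∀ i, e i ∈ L' := fun i => by rw [hLe]; exact mem_image_of_mem _ (mem_univ _)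
  obtain ⟨i, -, rfl⟩ := Finset.mem_image.1 (hLe ▸ hl')
  have key : ∀ a b : Fin 4, a ≠ b → ∃ k : Fin 6, y k ∈ s (e a) ∧ y k ∈ s (e b) ∧
      ∀ m, y k ∈ s (e m) → m = a ∨ m = b := by
    intro a b hab
    obtain ⟨k, hk⟩ := pair_ex a b hab
    refine ⟨k, (hmem k a).2 ?_, (hmem k b).2 ?_, ?_⟩
    · rcases hk with ⟨h1, h2⟩ | ⟨h1, h2⟩
      · exact Or.inl h1.symm
      · exact Or.inr h2.symm
    · rcases hk with ⟨h1, h2⟩ | ⟨h1, h2⟩
      · exact Or.inr h2.symm
      · exact Or.inl h1.symm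
    · intro m hm
      rcases (hmem k m).1 hm with h | h <;> rcases hk with ⟨h1, h2⟩ | ⟨h1, h2⟩
      · exact Or.inl (h.trans h1)
      · exact Or.inr (h.trans h1)
      · exact Or.inr (h.trans h2)
      · exact Or.inl (h.trans h2)
  -- a line outside `L` through a point of a line of `L` passes through `x`
  have hout : ∀ a b : Fin 4, e a ∈ L → e b ∉ L → ∀ z, z ∈ s (e a) → z ∈ s (e b) → z = x := by
    intro a b ha hb z hza hzb
    have h1 : z ∈ s (e b) ∩ pts s L :=
      Finset.mem_inter.2 ⟨hzb, Finset.mem_biUnion.2 ⟨e a, ha, hza⟩⟩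
    exact Finset.mem_singleton.1 (hex (e b) (hL'K (heL' b)) hb h1)
  have hall : ∀ j, e j ∈ L := by
    intro j
    by_contra hj
    have hij : i ≠ j := by
      rintro rfl
      exact hj hl
    obtain ⟨k, hki, hkj⟩ := other_idx i j hij
    obtain ⟨a, ha1, ha2, ha3⟩ := key i j hij
    have hax : y a = x := hout i j hl hj _ ha1 ha2
    by_cases hk : e k ∈ L
    · obtain ⟨b, hb1, hb2, hb3⟩ := key k j hkj
      have hbx : y b = x := hout k j hk hj _ hb1 hb2
      rcases ha3 k (by rw [hax, ← hbx]; exact hb1) with h | h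
      · exact hki h
      · exact hkj h
    · obtain ⟨b, hb1, hb2, hb3⟩ := key i k (Ne.symm hki)
      have hbx : y b = x := hout i k hl hk _ hb1 hb2
      rcases ha3 k (by rw [hax, ← hbx]; exact hb2) with h | h
      · exact hki h
      · exact hkj h
  apply Finset.eq_of_subset_of_card_le
  · intro b hb
    rw [hLe] at hb
    obtain ⟨j, -, rfl⟩ := Finset.mem_image.1 hb
    exact hall j
  · rw [hL.1, hL'.1]

end Pool.Agent.Helper29_CF.H38
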